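import Pool.Agent.N290.RJ.Stm
import Pool.Agent.N290.RJ.Un
import Pool.Agent.Helper540.Holo

/-!
# Project RJ (helper290), part D2N: the smooth solution of the Bezout equation, any number of
functions (helper749)
-/

set_option autoImplicit false
set_option linter.unusedSectionVars false

open Complex MeasureTheory Set Filter Topology
open scoped ENNReal

namespace Pool.Agent.N749.RJ

open Pool.Agent.N290.RJ

noncomputable section

variable {d M : ℕ}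

/-- the function `∑ |f_l|²`, complex valued -/
def PP (f : Fin M → E d → ℂ) (z : E d) : ℂ := ∑ l, f l z * starRingEnd ℂ (f l z)

/-- its inverse -/
def QQ (f : Fin M → E d → ℂ) (z : E d) : ℂ := (PP f z)⁻¹

theorem PP_eq (f : Fin M → E d → ℂ) (z : E d) : PP f z = ((∑ l, ‖f l z‖ ^ 2 : ℝ) : ℂ) := by
  unfold PP
  simp only [mulconj]
  push_cast
  rfl

theorem norm_PP (f : Fin M → E d → ℂ) (z : E d) : ‖PP f z‖ = ∑ l, ‖f l z‖ ^ 2 := by
  rw [PP_eq, Complex.norm_real, Real.norm_eq_abs, abs_of_nonneg]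
  exact Finset.sum_nonneg fun l _ => sq_nonneg _

theorem PP_ge {f : Fin M → E d → ℂ} {z : E d} {δ : ℝ} (hδ : 0 < δ) (h : δ ≤ ∑ j, ‖f j z‖) :
    δ ^ 2 / (M + 1) ≤ ‖PP f z‖ := by
  rw [norm_PP, div_le_iff₀ (by positivity)]
  have h1 : (∑ j, ‖f j z‖) ^ 2 ≤ (M : ℝ) * ∑ j, ‖f j z‖ ^ 2 := by
    have := sq_sum_le_card_mul_sum_sq (s := (Finset.univ : Finset (Fin M)))
      (f := fun j => ‖f j z‖)
    rw [Finset.card_univ, Fintype.card_fin] at this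
    exact this
  have h2 : δ ^ 2 ≤ (∑ j, ‖f j z‖) ^ 2 := pow_le_pow_left₀ hδ.le h 2
  have h3 : 0 ≤ ∑ l, ‖f l z‖ ^ 2 := Finset.sum_nonneg fun l _ => sq_nonneg _
  linarith

section

variable {f : Fin M → E d → ℂ} (hf : ∀ j, DifferentiableOn ℂ (f j) (B d))

include hf

theorem cd (j : Fin M) : ContDiffOn ℝ 1 (f j) (B d) := by
  have h1 : ContDiffOn ℂ ((1 : ℕ) : WithTop ℕ∞) (f j) (B d) :=
    Pool.Agent.Helper540.contDiffOn_of_differentiableOn B_open (hf j) 1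
  have h2 := h1.restrict_scalars ℝ
  exact_mod_cast h2

theorem cdc (j : Fin M) : ContDiffOn ℝ 1 (fun z => starRingEnd ℂ (f j z)) (B d) :=
  Complex.conjCLE.contDiff.comp_contDiffOn (cd hf j)

theorem fd {z : E d} (hz : z ∈ B d) (j : Fin M) (ξ : E d) :
    fderiv ℝ (f j) z ξ = fderiv ℂ (f j) z ξ := by
  rw [((hf j).differentiableAt (B_open.mem_nhds hz)).fderiv_restrictScalars ℝ]
  rfl

theorem da {z : E d} (hz : z ∈ B d) (j : Fin M) : DifferentiableAt ℝ (f j) z :=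
  ((cd hf j).contDiffAt (B_open.mem_nhds hz)).differentiableAt (by norm_num)

theorem dac {z : E d} (hz : z ∈ B d) (j : Fin M) :
    DifferentiableAt ℝ (fun z => starRingEnd ℂ (f j z)) z :=
  ((cdc hf j).contDiffAt (B_open.mem_nhds hz)).differentiableAt (by norm_num)

theorem fdc {z : E d} (hz : z ∈ B d) (j : Fin M) (ξ : E d) :
    fderiv ℝ (fun z => starRingEnd ℂ (f j z)) z ξ = starRingEnd ℂ (fderiv ℂ (f j) z ξ) := by
  have h1 : HasFDerivAt (fun z => starRingEnd ℂ (f j z))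
      ((Complex.conjCLE : ℂ →L[ℝ] ℂ).comp (fderiv ℝ (f j) z)) z :=
    (Complex.conjCLE : ℂ →L[ℝ] ℂ).hasFDerivAt.comp z (da hf hz j).hasFDerivAt
  rw [h1.fderiv, ContinuousLinearMap.comp_apply, fd hf hz]
  rfl

theorem cdP : ContDiffOn ℝ 1 (PP f) (B d) := by
  unfold PP
  exact ContDiffOn.sum fun l _ => (cd hf l).mul (cdc hf l)

theorem daP {z : E d} (hz : z ∈ B d) : DifferentiableAt ℝ (PP f) z :=
  ((cdP hf).contDiffAt (B_open.mem_nhds hz)).differentiableAt (by norm_num)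

theorem fdP {z : E d} (hz : z ∈ B d) (ξ : E d) : fderiv ℝ (PP f) z ξ =
    ∑ l, (f l z * starRingEnd ℂ (fderiv ℂ (f l) z ξ) +
      starRingEnd ℂ (f l z) * fderiv ℂ (f l) z ξ) := by
  have h1 : PP f = fun w => ∑ l, f l w * starRingEnd ℂ (f l w) := rfl
  have h2 : ∀ l, DifferentiableAt ℝ (fun w => f l w * starRingEnd ℂ (f l w)) z :=
    fun l => (da hf hz l).mul (dac hf hz l)
  rw [h1, fderiv_fun_sum (fun l _ => h2 l), sum_apply]
  refine Finset.sum_congr rfl fun l _ => ?_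
  rw [fderiv_fun_mul (da hf hz l) (dac hf hz l), add_apply, smul_apply, smul_apply,
    fdc hf hz, fd hf hz]
  rfl

variable (h0 : ∀ z ∈ B d, PP f z ≠ 0)

include h0

theorem cdQ : ContDiffOn ℝ 1 (QQ f) (B d) := (cdP hf).inv h0

theorem daQ {z : E d} (hz : z ∈ B d) : DifferentiableAt ℝ (QQ f) z :=
  ((cdQ hf h0).contDiffAt (B_open.mem_nhds hz)).differentiableAt (by norm_num)

theorem fdQ {z : E d} (hz : z ∈ B d) (ξ : E d) :
    fderiv ℝ (QQ f) z ξ = -(QQ f z) ^ 2 * fderiv ℝ (PP f) z ξ := by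
  have h1 : (fun w => PP f w * QQ f w) =ᶠ[𝓝 z] fun _ => (1 : ℂ) := by
    filter_upwards [B_open.mem_nhds hz] with w hw
    exact mul_inv_cancel₀ (h0 w hw)
  have h2 : fderiv ℝ (fun w => PP f w * QQ f w) z ξ = 0 := by
    rw [h1.fderiv_eq]
    simp
  rw [fderiv_fun_mul (daP hf hz) (daQ hf h0 hz), add_apply, smul_apply, smul_apply, smul_eq_mul,
    smul_eq_mul] at h2
  have h3 : PP f z * QQ f z = 1 := mul_inv_cancel₀ (h0 z hz)
  linear_combination QQ f z * h2 - fderiv ℝ (QQ f) z ξ * h3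

theorem dbP {z : E d} (hz : z ∈ B d) (ξ : E d) :
    db (PP f) z ξ = ∑ l, f l z * starRingEnd ℂ (fderiv ℂ (f l) z ξ) := by
  unfold db
  rw [fdP hf hz, fdP hf hz, Finset.mul_sum, ← Finset.sum_add_distrib, Finset.sum_div]
  refine Finset.sum_congr rfl fun l _ => ?_
  rw [map_smul, smul_eq_mul, map_mul, Complex.conj_I]
  have := Complex.I_mul_I
  linear_combination (-(f l z * starRingEnd ℂ (fderiv ℂ (f l) z ξ)) +
    starRingEnd ℂ (f l z) * fderiv ℂ (f l) z ξ) / 2 * this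

theorem dbQ {z : E d} (hz : z ∈ B d) (ξ : E d) :
    db (QQ f) z ξ = -(QQ f z) ^ 2 * ∑ l, f l z * starRingEnd ℂ (fderiv ℂ (f l) z ξ) := by
  rw [← dbP hf h0 hz]
  unfold db
  rw [fdQ hf h0 hz, fdQ hf h0 hz]
  ring

theorem dbc {z : E d} (hz : z ∈ B d) (j : Fin M) (ξ : E d) :
    db (fun z => starRingEnd ℂ (f j z)) z ξ = starRingEnd ℂ (fderiv ℂ (f j) z ξ) := by
  unfold db
  rw [fdc hf hz, fdc hf hz, map_smul, smul_eq_mul, map_mul, Complex.conj_I]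
  have := Complex.I_mul_I
  linear_combination (-(starRingEnd ℂ (fderiv ℂ (f j) z ξ))) / 2 * this

variable (hb : ∀ j, ∀ z ∈ B d, ‖f j z‖ ≤ 1) {K : ℝ} (hK : ∀ z ∈ B d, ‖QQ f z‖ ≤ K)

include hb

theorem nP {z : E d} (hz : z ∈ B d) (ξ : E d) :
    ‖fderiv ℝ (PP f) z ξ‖ ≤ 2 * ∑ i, ‖fderiv ℂ (f i) z ξ‖ := by
  rw [fdP hf hz, Finset.mul_sum]
  refine (norm_sum_le _ _).trans (Finset.sum_le_sum fun l _ => ?_)
  refine (norm_add_le _ _).trans ?_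
  rw [norm_mul, norm_mul, RCLike.norm_conj, RCLike.norm_conj]
  have h1 := hb l z hz
  have h2 := norm_nonneg (fderiv ℂ (f l) z ξ)
  nlinarith [norm_nonneg (f l z)]

include hK

theorem nQ {z : E d} (hz : z ∈ B d) (ξ : E d) :
    ‖fderiv ℝ (QQ f) z ξ‖ ≤ 2 * K ^ 2 * ∑ i, ‖fderiv ℂ (f i) z ξ‖ := by
  rw [fdQ hf h0 hz, norm_mul, norm_neg, norm_pow]
  have h1 := nP hf h0 hb hz ξ
  have h2 : ‖QQ f z‖ ^ 2 ≤ K ^ 2 := pow_le_pow_left₀ (norm_nonneg _) (hK z hz) 2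
  calc ‖QQ f z‖ ^ 2 * ‖fderiv ℝ (PP f) z ξ‖
      ≤ K ^ 2 * (2 * ∑ i, ‖fderiv ℂ (f i) z ξ‖) :=
        mul_le_mul h2 h1 (norm_nonneg _) (sq_nonneg _)
    _ = _ := by ring

theorem nH {z : E d} (hz : z ∈ B d) (j : Fin M) (ξ : E d) :
    ‖fderiv ℝ (fun z => starRingEnd ℂ (f j z) * QQ f z) z ξ‖ ≤
      (K + 2 * K ^ 2) * ∑ i, ‖fderiv ℂ (f i) z ξ‖ := by
  have hK0 : 0 ≤ K := (norm_nonneg _).trans (hK z hz)
  have hS : ‖fderiv ℂ (f j) z ξ‖ ≤ ∑ i, ‖fderiv ℂ (f i) z ξ‖ :=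
    Finset.single_le_sum (f := fun i => ‖fderiv ℂ (f i) z ξ‖) (fun i _ => norm_nonneg _)
      (Finset.mem_univ j)
  rw [fderiv_fun_mul (dac hf hz j) (daQ hf h0 hz), add_apply, smul_apply, smul_apply, smul_eq_mul,
    smul_eq_mul, fdc hf hz]
  refine (norm_add_le _ _).trans ?_
  rw [norm_mul, norm_mul, RCLike.norm_conj, RCLike.norm_conj]
  have h1 := nQ hf h0 hb hK hz ξ
  have h2 := hb j z hz
  have h3 := hK z hz
  have h4 : ‖f j z‖ * ‖fderiv ℝ (QQ f) z ξ‖ ≤ 1 * (2 * K ^ 2 * ∑ i, ‖fderiv ℂ (f i) z ξ‖) :=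
    mul_le_mul h2 h1 (norm_nonneg _) zero_le_one
  have h5 : ‖QQ f z‖ * ‖fderiv ℂ (f j) z ξ‖ ≤ K * ∑ i, ‖fderiv ℂ (f i) z ξ‖ :=
    mul_le_mul h3 hS (norm_nonneg _) hK0
  linarith

theorem nPsi {z : E d} (hz : z ∈ B d) (j : Fin M) (ξ : E d) :
    ‖fderiv ℝ (fun z => starRingEnd ℂ (f j z) * QQ f z * QQ f z) z ξ‖ ≤
      (K ^ 2 + 4 * K ^ 3) * ∑ i, ‖fderiv ℂ (f i) z ξ‖ := by
  have hK0 : 0 ≤ K := (norm_nonneg _).trans (hK z hz)
  have hS0 : 0 ≤ ∑ i, ‖fderiv ℂ (f i) z ξ‖ := Finset.sum_nonneg fun i _ => norm_nonneg _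
  have hd2 : DifferentiableAt ℝ (fun z => starRingEnd ℂ (f j z) * QQ f z) z :=
    (dac hf hz j).mul (daQ hf h0 hz)
  rw [fderiv_fun_mul hd2 (daQ hf h0 hz), add_apply, smul_apply,
    smul_apply, smul_eq_mul, smul_eq_mul]
  refine (norm_add_le _ _).trans ?_
  rw [norm_mul, norm_mul, norm_mul, RCLike.norm_conj]
  have h1 := nQ hf h0 hb hK hz ξ
  have h2 := hb j z hz
  have h3 := hK z hz
  have h4 := nH hf h0 hb hK hz j ξ
  have h5 : ‖f j z‖ * ‖QQ f z‖ ≤ 1 * K := mul_le_mul h2 h3 (norm_nonneg _) zero_le_one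
  have h6 : ‖f j z‖ * ‖QQ f z‖ * ‖fderiv ℝ (QQ f) z ξ‖ ≤
      1 * K * (2 * K ^ 2 * ∑ i, ‖fderiv ℂ (f i) z ξ‖) :=
    mul_le_mul h5 h1 (norm_nonneg _) (by linarith)
  have h7 : ‖QQ f z‖ * ‖fderiv ℝ (fun z => starRingEnd ℂ (f j z) * QQ f z) z ξ‖ ≤
      K * ((K + 2 * K ^ 2) * ∑ i, ‖fderiv ℂ (f i) z ξ‖) :=
    mul_le_mul h3 h4 (norm_nonneg _) hK0
  have h8 : 1 * K * (2 * K ^ 2 * ∑ i, ‖fderiv ℂ (f i) z ξ‖) +
      K * ((K + 2 * K ^ 2) * ∑ i, ‖fderiv ℂ (f i) z ξ‖) =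
      (K ^ 2 + 4 * K ^ 3) * ∑ i, ‖fderiv ℂ (f i) z ξ‖ := by ring
  linarith

end

end

end Pool.Agent.N749.RJ

namespace Pool.Agent.N749.RJ

open Pool.Agent.N290.RJ (E B db)

/-- **The smooth solution of the Bezout equation**, any number of functions. -/
theorem D2N (d : ℕ) : Pool.Agent.N290.RJ.D2N d := by
  intro M δ hδ
  obtain ⟨K, hK⟩ : ∃ K : ℝ, K = (M + 1) / δ ^ 2 := ⟨_, rfl⟩
  have hK0 : 0 < K := by rw [hK]; positivity
  refine ⟨1 + K + 3 * K ^ 2 + 4 * K ^ 3, by positivity, fun f hf hb hd => ?_⟩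
  have hP : ∀ z ∈ B d, δ ^ 2 / (M + 1) ≤ ‖PP f z‖ := fun z hz => PP_ge hδ (hd z hz)
  have hpos : 0 < δ ^ 2 / ((M : ℝ) + 1) := by positivity
  have h0 : ∀ z ∈ B d, PP f z ≠ 0 := by
    intro z hz h
    have h1 := hP z hz
    rw [h, norm_zero] at h1
    linarith
  have hQ : ∀ z ∈ B d, ‖QQ f z‖ ≤ K := by
    intro z hz
    have h1 : K = (δ ^ 2 / ((M : ℝ) + 1))⁻¹ := by rw [hK, inv_div]
    rw [QQ, norm_inv, h1]
    exact inv_anti₀ hpos (hP z hz)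
  refine ⟨fun j z => starRingEnd ℂ (f j z) * QQ f z * QQ f z,
    fun j z => starRingEnd ℂ (f j z) * QQ f z, ?_, ?_, ?_, ?_, ?_, ?_⟩
  · intro j
    exact ((cdc hf j).mul (cdQ hf h0)).mul (cdQ hf h0)
  · intro j
    exact (cdc hf j).mul (cdQ hf h0)
  · intro z hz
    have h3 := hQ z hz
    refine ⟨fun j => ⟨?_, ?_⟩, ?_⟩
    · rw [norm_mul, norm_mul, RCLike.norm_conj]
      have h2 := hb j z hz
      have h4 : ‖f j z‖ * ‖QQ f z‖ ≤ 1 * K := mul_le_mul h2 h3 (norm_nonneg _) zero_le_one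
      have h5 : ‖f j z‖ * ‖QQ f z‖ * ‖QQ f z‖ ≤ 1 * K * K :=
        mul_le_mul h4 h3 (norm_nonneg _) (by linarith)
      nlinarith [pow_pos hK0 2, pow_pos hK0 3]
    · rw [norm_mul, RCLike.norm_conj]
      have h2 := hb j z hz
      have h4 : ‖f j z‖ * ‖QQ f z‖ ≤ 1 * K := mul_le_mul h2 h3 (norm_nonneg _) zero_le_one
      nlinarith [pow_pos hK0 2, pow_pos hK0 3]
    · have h4 : ∑ j, f j z * (starRingEnd ℂ (f j z) * QQ f z) = PP f z * QQ f z := by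
        unfold PP
        rw [Finset.sum_mul]
        exact Finset.sum_congr rfl fun j _ => by ring
      rw [h4]
      exact mul_inv_cancel₀ (h0 z hz)
  · intro j z hz ξ
    refine (nPsi hf h0 hb hQ hz j ξ).trans ?_
    refine mul_le_mul_of_nonneg_right ?_ (Finset.sum_nonneg fun i _ => norm_nonneg _)
    nlinarith [pow_pos hK0 2, pow_pos hK0 3]
  · intro j z hz ξ
    refine (nH hf h0 hb hQ hz j ξ).trans ?_
    refine mul_le_mul_of_nonneg_right ?_ (Finset.sum_nonneg fun i _ => norm_nonneg _)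
    nlinarith [pow_pos hK0 2, pow_pos hK0 3]
  · intro j z hz ξ
    rw [Pool.Agent.N290.RJ.db_mul (dac hf hz j) (daQ hf h0 hz), dbc hf h0 hz, dbQ hf h0 hz]
    have h3 : PP f z * QQ f z = 1 := mul_inv_cancel₀ (h0 z hz)
    have h4 : ∑ i, f i z * (starRingEnd ℂ (f i z) * QQ f z * QQ f z *
        starRingEnd ℂ (fderiv ℂ (f j) z ξ) - starRingEnd ℂ (f j z) * QQ f z * QQ f z *
        starRingEnd ℂ (fderiv ℂ (f i) z ξ)) =
        PP f z * QQ f z * QQ f z * starRingEnd ℂ (fderiv ℂ (f j) z ξ) -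
        starRingEnd ℂ (f j z) * QQ f z ^ 2 *
          ∑ i, f i z * starRingEnd ℂ (fderiv ℂ (f i) z ξ) := by
      unfold PP
      rw [Finset.sum_mul, Finset.sum_mul, Finset.sum_mul, Finset.mul_sum,
        ← Finset.sum_sub_distrib]
      exact Finset.sum_congr rfl fun i _ => by ring
    rw [h4, h3]
    ring

end Pool.Agent.N749.RJ
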